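import Mathlib

/-! The coset-counting procedure in the free group of rank two always terminates. -/

namespace Pool.Agent.Results.MP_544047_al.AlwaysTerminates

/-- The free group on two generators. -/
abbrev F2 : Type := FreeGroup (Fin 2)

/-- The four letters `a, b, a⁻¹, b⁻¹`. -/
def Xi : Set F2 := {h | ∃ i : Fin 2, h = FreeGroup.of i ∨ h = (FreeGroup.of i)⁻¹}

/-- The cosets `h x H` with `h` a letter and `x H ∈ S`. -/
def step {H : Subgroup F2} (S : Set (F2 ⧸ H)) : Set (F2 ⧸ H) :=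
  {z | ∃ h ∈ Xi, ∃ x ∈ S, z = h • x}

/-- The sets `C_i`: `C_0 = {yH}`, `C_1 = step C_0` (as `C_{-1} = ∅`) and
`C_{i+2} = step C_{i+1} \ C_i`. -/
def C (H : Subgroup F2) (y : F2) : ℕ → Set (F2 ⧸ H)
  | 0 => {(QuotientGroup.mk y : F2 ⧸ H)}
  | 1 => step {(QuotientGroup.mk y : F2 ⧸ H)}
  | (i + 2) => step (C H y (i + 1)) \ C H y i

/-- `U (i+2)` is the set of cosets reachable by a walk of length exactly `i`; `U 0 = U 1 = ∅`. -/
def U (H : Subgroup F2) (y : F2) : ℕ → Set (F2 ⧸ H)
  | 0 => ∅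
  | 1 => ∅
  | 2 => {(QuotientGroup.mk y : F2 ⧸ H)}
  | (i + 3) => step (U H y (i + 2))

theorem step_mono {H : Subgroup F2} {S T : Set (F2 ⧸ H)} (h : S ⊆ T) : step S ⊆ step T := by
  rintro z ⟨g, hg, x, hx, rfl⟩
  exact ⟨g, hg, x, h hx, rfl⟩

theorem xi_inv {h : F2} (hh : h ∈ Xi) : h⁻¹ ∈ Xi := by
  obtain ⟨i, rfl | rfl⟩ := hh
  · exact ⟨i, Or.inr rfl⟩
  · exact ⟨i, Or.inl (inv_inv _)⟩

theorem step_empty {H : Subgroup F2} : step (∅ : Set (F2 ⧸ H)) = ∅ := by
  ext z; simp [step]

theorem step_U (H : Subgroup F2) (y : F2) (i : ℕ) : step (U H y i) ⊆ U H y (i + 1) := by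
  match i with
  | 0 => simp [U, step_empty]
  | 1 => simp [U, step_empty]
  | (i + 2) => exact subset_of_eq rfl

theorem U_sub (H : Subgroup F2) (y : F2) (i : ℕ) : U H y i ⊆ U H y (i + 2) := by
  induction i with
  | zero => simp [U]
  | succ i ih =>
    match i with
    | 0 => simp [U]
    | 1 =>
      intro z hz
      have h1 : FreeGroup.of (0 : Fin 2) ∈ Xi := ⟨0, Or.inl rfl⟩
      refine ⟨_, h1, (FreeGroup.of (0 : Fin 2))⁻¹ • z, ⟨_, xi_inv h1, z, hz, rfl⟩, ?_⟩
      rw [smul_inv_smul]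
    | (i + 2) => exact step_mono ih

theorem C_eq (H : Subgroup F2) (y : F2) (i : ℕ) :
    C H y i = U H y (i + 2) \ U H y i ∧ C H y (i + 1) = U H y (i + 3) \ U H y (i + 1) := by
  induction i with
  | zero => constructor <;> simp [C, U]
  | succ i ih =>
    refine ⟨ih.2, ?_⟩
    show step (C H y (i + 1)) \ C H y i = step (U H y (i + 3)) \ U H y (i + 2)
    rw [ih.1, ih.2]
    ext z
    constructor
    · rintro ⟨⟨g, hg, x, ⟨hx1, hx2⟩, rfl⟩, hz⟩
      refine ⟨⟨g, hg, x, hx1, rfl⟩, fun hz2 => hz ⟨hz2, fun hz3 => hx2 ?_⟩⟩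
      apply step_U H y i
      exact ⟨g⁻¹, xi_inv hg, g • x, hz3, by rw [inv_smul_smul]⟩
    · rintro ⟨⟨g, hg, x, hx, rfl⟩, hz⟩
      refine ⟨⟨g, hg, x, ⟨hx, fun hx2 => hz ?_⟩, rfl⟩, fun h => hz h.1⟩
      exact step_U H y (i + 1) ⟨g, hg, x, hx2, rfl⟩

theorem U_mono (H : Subgroup F2) (y : F2) (i k : ℕ) : U H y i ⊆ U H y (i + 2 * k) := by
  induction k with
  | zero => exact subset_rfl
  | succ k ih => exact ih.trans (U_sub H y (i + 2 * k))

theorem C_stays_empty (H : Subgroup F2) (y : F2) (i : ℕ) (h : C H y i = ∅) :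
    ∀ j, i ≤ j → C H y j = ∅ := by
  intro j hj
  induction j, hj using Nat.le_induction with
  | base => exact h
  | succ j hj ih =>
    match j with
    | 0 =>
      exfalso
      have h1 : (QuotientGroup.mk y : F2 ⧸ H) ∈ C H y 0 := rfl
      rw [ih] at h1
      exact h1
    | (j + 1) =>
      show step (C H y (j + 1)) \ C H y j = ∅
      rw [ih, step_empty, Set.empty_sdiff]

/-- For every subgroup `H` of finite index of the free group of rank two and every `y`, the
procedure terminates, after at most `2 [F₂ : H]` steps. -/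
theorem result (H : Subgroup F2) [H.FiniteIndex] (y : F2) :
    ∃ i : ℕ, 1 ≤ i ∧ i ≤ 2 * H.index ∧ ∀ j, i ≤ j → C H y j = ∅ := by
  have key : ∃ k ∈ Finset.range (H.index + 1), C H y (2 * k) = ∅ := by
    by_contra hcon
    push Not at hcon
    choose! c hc using hcon
    have : Fintype (F2 ⧸ H) := Fintype.ofFinite _
    have hinj : Set.InjOn c (Finset.range (H.index + 1) : Set ℕ) := by
      have aux : ∀ k l, k ∈ Finset.range (H.index + 1) → l ∈ Finset.range (H.index + 1) → k < l →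
          c k ≠ c l := by
        intro k l hk hl hkl e
        have h1 := hc k hk
        have h2 := hc l hl
        rw [(C_eq H y (2 * k)).1] at h1
        rw [(C_eq H y (2 * l)).1, ← e] at h2
        apply h2.2
        have := U_mono H y (2 * k + 2) (l - k - 1) h1.1
        rwa [show 2 * k + 2 + 2 * (l - k - 1) = 2 * l by omega] at this
      intro k hk l hl e
      rcases lt_trichotomy k l with h | h | h
      · exact absurd e (aux k l hk hl h)
      · exact h
      · exact absurd e.symm (aux l k hl hk h)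
    have hcard := Finset.card_le_card_of_injOn (s := Finset.range (H.index + 1))
      (t := (Finset.univ : Finset (F2 ⧸ H))) c (fun _ _ => Finset.mem_univ _) hinj
    rw [Finset.card_range, Finset.card_univ, ← Nat.card_eq_fintype_card] at hcard
    have : H.index = Nat.card (F2 ⧸ H) := rfl
    omega
  obtain ⟨k, hk, hk2⟩ := key
  have hk0 : k ≠ 0 := by
    rintro rfl
    have h1 : (QuotientGroup.mk y : F2 ⧸ H) ∈ C H y 0 := rfl
    rw [show C H y 0 = ∅ from hk2] at h1
    exact h1
  rw [Finset.mem_range] at hk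
  exact ⟨2 * k, by omega, by omega, C_stays_empty H y _ hk2⟩

end Pool.Agent.Results.MP_544047_al.AlwaysTerminates
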